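import Pool.Agent.N49.KR.Main

/-!
# MP_2d6919_lc, Q1: yes

Let `B` be a ccc complete Boolean algebra with a continuous outer measure `m`, all of whose countably
generated complete subalgebras admit measures. Then `B` admits a measure.

Proof. (1) `m` is uniformly exhaustive: otherwise there are `ε > 0` and, for every `n`, more than `n` pairwise
disjoint elements with `m ≥ ε`; a measure on the complete subalgebra generated by all of them gives elements `x_k`
with `m x_k ≥ ε` and `μ x_k ≤ 2^(-k) μ 1`, whose upper limit is `0`, against the continuity of `m`.
(2) The theorem of Kalton and Roberts (proved in `Pool/Agent/N49/KR`): below every nonzero uniformly exhaustive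
submeasure there is a nonzero finitely additive functional; it is countably additive since `m` is continuous.
(3) Exhaustion.
-/

set_option autoImplicit false

namespace Pool.Agent.Results.MP_2d6919_lc.ContinuousOuterMeasure

open Pool.Agent.N49.KR

universe u

/-- If every countably generated complete subalgebra of the ccc complete Boolean algebra `B` admits a measure and
`B` admits a continuous outer measure then `B` admits a measure. -/
theorem result : ∀ (B : Type u) [CompleteBooleanAlgebra B], CCC B →
    (∀ L : BooleanSubalgebra B, IsCtblyGenerated L → HasMeasure L) →
    (∃ m : B → ℝ, IsContOuter m) → HasMeasure B := by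
  intro B _ hccc hsub hm
  exact main hccc hsub hm

end Pool.Agent.Results.MP_2d6919_lc.ContinuousOuterMeasure
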